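import Mathlib

/-!
# Every tropical polynomial is rationally factorizable

Let `f = max_{a ∈ A} (c_a + a · x)`. If the affine functions `c_a + a · x`, `a ∈ A`, have a common
value at some point, then `f` is a unit. Otherwise there are real numbers `w_a` with `∑ w_a = 0`,
`∑ w_a a = 0` and `∑ w_a c_a = 1`, so that `∑ w_a (c_a + a · x) = 1` for all `x`. Let `T` be the
set of all `a` with `w_a < 0`. For every `x` the smallest of the numbers `c_b + b · x`, `b ∈ T`, is
less than `c_a + a · x` for some `a ∈ A \ T`. Hence adding or deleting this `b` does not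
change `max_{a ∈ K ∪ (A \ T)} (c_a + a · x)`, and
`∑_{K ⊆ T} (-1)^|K| max_{a ∈ K ∪ (A \ T)} (c_a + a · x) = 0`.
The term with `K = T` is `f` up to sign, all other terms have fewer exponents, and the claim follows
by induction.
-/

namespace Pool.Agent.Results.MP_b8ee47_co.RationalFactorization

open Finset

variable {n : ℕ}

/-- The tropical polynomial `max_{a ∈ A} (c a + a · x)`, as a function on `ℝ^n`. -/
noncomputable def trop (A : Finset (Fin n → ℕ)) (hA : A.Nonempty) (c : (Fin n → ℕ) → ℝ) :
    (Fin n → ℝ) → ℝ :=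
  fun x => A.sup' hA fun a => c a + ∑ i, (a i : ℝ) * x i

/-- A tropical polynomial in `n` variables, as a function on `ℝ^n`. -/
def IsTropicalPolynomial (f : (Fin n → ℝ) → ℝ) : Prop :=
  ∃ (A : Finset (Fin n → ℕ)) (hA : A.Nonempty) (c : (Fin n → ℕ) → ℝ), f = trop A hA c

/-- The Newton polytope `conv A`. -/
def newton (A : Finset (Fin n → ℕ)) : Set (Fin n → ℝ) :=
  convexHull ℝ ((fun (a : Fin n → ℕ) (i : Fin n) => (a i : ℝ)) '' (A : Set (Fin n → ℕ)))

/-- The lifted polytope `conv {(a, -c a) : a ∈ A}` in `ℝ^n × ℝ`. -/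
def lifted (A : Finset (Fin n → ℕ)) (c : (Fin n → ℕ) → ℝ) : Set ((Fin n → ℝ) × ℝ) :=
  convexHull ℝ ((fun a : Fin n → ℕ => ((fun i => (a i : ℝ)), -c a)) '' (A : Set (Fin n → ℕ)))

/-- The lower face of the lifted polytope on which the functional `(y, t) ↦ u · y + t` is minimal.
Every lower face is of this form. -/
def lowerFace (A : Finset (Fin n → ℕ)) (c : (Fin n → ℕ) → ℝ) (u : Fin n → ℝ) :
    Set ((Fin n → ℝ) × ℝ) :=
  {p | p ∈ lifted A c ∧ ∀ q ∈ lifted A c, ∑ i, u i * p.1 i + p.2 ≤ ∑ i, u i * q.1 i + q.2}

/-- `C` is a cell of the regular subdivision: the projection of a lower face. -/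
def IsCell (A : Finset (Fin n → ℕ)) (c : (Fin n → ℕ) → ℝ) (C : Set (Fin n → ℝ)) : Prop :=
  ∃ u : Fin n → ℝ, C = Prod.fst '' lowerFace A c u

/-- The regular subdivision is trivial: its only maximal cell is the Newton polytope. -/
def TrivialSubdivision (A : Finset (Fin n → ℕ)) (c : (Fin n → ℕ) → ℝ) : Prop :=
  ∀ C : Set (Fin n → ℝ), Maximal (IsCell A c) C ↔ C = newton A

/-- A unit: a tropical polynomial whose regular subdivision is trivial. -/
def IsTropicalUnit (f : (Fin n → ℝ) → ℝ) : Prop :=
  ∃ (A : Finset (Fin n → ℕ)) (hA : A.Nonempty) (c : (Fin n → ℕ) → ℝ),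
    f = trop A hA c ∧ TrivialSubdivision A c

/-- `f` is rationally factorizable: `f ⊙ g = h`, where `g` and `h` are finite tropical products
(that is, sums of functions) of units. -/
def RationallyFactorizable (f : (Fin n → ℝ) → ℝ) : Prop :=
  ∃ G H : List ((Fin n → ℝ) → ℝ), (∀ u ∈ G, IsTropicalUnit u) ∧ (∀ u ∈ H, IsTropicalUnit u) ∧
    f + G.sum = H.sum

/-- Projecting the lifted polytope gives the Newton polytope. -/
lemma fst_lifted (A : Finset (Fin n → ℕ)) (c : (Fin n → ℕ) → ℝ) :
    Prod.fst '' lifted A c = newton A := by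
  have h := (LinearMap.fst ℝ (Fin n → ℝ) ℝ).image_convexHull
    ((fun a : Fin n → ℕ => ((fun i => (a i : ℝ)), -c a)) '' (A : Set (Fin n → ℕ)))
  rw [Set.image_image] at h
  exact h

lemma cell_subset (A : Finset (Fin n → ℕ)) (c : (Fin n → ℕ) → ℝ) (C : Set (Fin n → ℝ))
    (hC : IsCell A c C) : C ⊆ newton A := by
  obtain ⟨u, rfl⟩ := hC
  rw [← fst_lifted A c]
  exact Set.image_mono fun p hp => hp.1

/-- If the affine functions have a common value somewhere, then the subdivision is trivial. -/
lemma trivial_of_common (A : Finset (Fin n → ℕ)) (c : (Fin n → ℕ) → ℝ) (x : Fin n → ℝ) (g : ℝ)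
    (h : ∀ a ∈ A, c a + ∑ i, (a i : ℝ) * x i = g) : TrivialSubdivision A c := by
  have hlin : ∀ p ∈ lifted A c, ∑ i, (-x i) * p.1 i + p.2 = -g := by
    intro p hp
    let L : (Fin n → ℝ) × ℝ →ₗ[ℝ] ℝ :=
      { toFun := fun p => ∑ i, (-x i) * p.1 i + p.2
        map_add' := by
          intro p q
          simp only [Prod.fst_add, Prod.snd_add, Pi.add_apply, mul_add, sum_add_distrib]
          ring
        map_smul' := by
          intro r p
          simp only [Prod.smul_fst, Prod.smul_snd, Pi.smul_apply, smul_eq_mul, RingHom.id_apply,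
            mul_add, mul_sum]
          congr 1
          exact sum_congr rfl fun i _ => by ring }
    have hconv : Convex ℝ (L ⁻¹' {-g}) := (convex_singleton (-g)).linear_preimage L
    have hsub : ((fun a : Fin n → ℕ => ((fun i => (a i : ℝ)), -c a)) ''
        (A : Set (Fin n → ℕ))) ⊆ L ⁻¹' {-g} := by
      rintro _ ⟨a, ha, rfl⟩
      have h1 := h a ha
      change ∑ i, (-x i) * (a i : ℝ) + (-c a) = -g
      have h2 : ∑ i, (-x i) * (a i : ℝ) = -∑ i, (a i : ℝ) * x i := by
        rw [← sum_neg_distrib]
        exact sum_congr rfl fun i _ => by ring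
      rw [h2]; linarith
    exact convexHull_min hsub hconv hp
  have hface : lowerFace A c (fun i => -x i) = lifted A c := by
    apply Set.Subset.antisymm
    · exact fun p hp => hp.1
    · intro p hp
      refine ⟨hp, fun q hq => ?_⟩
      rw [hlin p hp, hlin q hq]
  have hcell : IsCell A c (newton A) := ⟨fun i => -x i, by rw [hface, fst_lifted]⟩
  intro C
  constructor
  · intro hC
    exact Set.Subset.antisymm (cell_subset A c C hC.1) (hC.2 hcell (cell_subset A c C hC.1))
  · rintro rfl
    exact ⟨hcell, fun D hD _ => cell_subset A c D hD⟩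

/-- If the affine functions have no common value, a linear combination of them with total weight `0`
is the constant `1`. -/
lemma exists_weights (A : Finset (Fin n → ℕ)) (c : (Fin n → ℕ) → ℝ)
    (h : ¬ ∃ (x : Fin n → ℝ) (g : ℝ), ∀ a ∈ A, c a + ∑ i, (a i : ℝ) * x i = g) :
    ∃ w : (Fin n → ℕ) → ℝ, ∑ a ∈ A, w a = 0 ∧
      ∀ x : Fin n → ℝ, ∑ a ∈ A, w a * (c a + ∑ i, (a i : ℝ) * x i) = 1 := by
  classical
  let M : (Fin n → ℝ) × ℝ →ₗ[ℝ] (A → ℝ) :=
    { toFun := fun p a => ∑ i, ((a : Fin n → ℕ) i : ℝ) * p.1 i + p.2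
      map_add' := by
        intro p q
        funext a
        simp only [Prod.fst_add, Prod.snd_add, Pi.add_apply, mul_add, sum_add_distrib]
        ring
      map_smul' := by
        intro r p
        funext a
        simp only [Prod.smul_fst, Prod.smul_snd, Pi.smul_apply, smul_eq_mul, RingHom.id_apply,
          mul_add, mul_sum]
        congr 1
        exact sum_congr rfl fun i _ => by ring }
  let v : A → ℝ := fun a => c a
  have hv : v ∉ LinearMap.range M := by
    rintro ⟨p, hp⟩
    apply h
    refine ⟨fun i => -p.1 i, p.2, fun a ha => ?_⟩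
    have h1 : ∑ i, (a i : ℝ) * p.1 i + p.2 = c a := congrFun hp ⟨a, ha⟩
    have h2 : ∑ i, (a i : ℝ) * (-p.1 i) = -∑ i, (a i : ℝ) * p.1 i := by
      rw [← sum_neg_distrib]
      exact sum_congr rfl fun i _ => by ring
    rw [h2]; linarith
  obtain ⟨φ, hφv, hφ⟩ := Submodule.exists_le_ker_of_notMem hv
  have hrep : ∀ u : A → ℝ, φ u = ∑ a : A, φ (Pi.single a 1) * u a := by
    intro u
    conv_lhs => rw [pi_eq_sum_univ' u]
    rw [map_sum]
    refine sum_congr rfl fun a _ => ?_
    rw [map_smul, smul_eq_mul, mul_comm]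
  let w : (Fin n → ℕ) → ℝ := fun a => if ha : a ∈ A then φ (Pi.single ⟨a, ha⟩ 1) / φ v else 0
  have hw : ∀ u : (Fin n → ℕ) → ℝ, ∑ a ∈ A, w a * u a = φ (fun a : A => u a) / φ v := by
    intro u
    rw [hrep, ← sum_coe_sort A, sum_div]
    refine sum_congr rfl fun a _ => ?_
    simp only [w, a.2, dif_pos]
    ring
  have hker : ∀ p : (Fin n → ℝ) × ℝ, φ (M p) = 0 := fun p =>
    LinearMap.mem_ker.1 (hφ (LinearMap.mem_range_self M p))
  refine ⟨w, ?_, fun x => ?_⟩
  · have h1 := hw fun _ => 1
    simp only [mul_one] at h1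
    rw [h1]
    have h2 := hker (0, 1)
    have h3 : M (0, 1) = fun _ : A => (1 : ℝ) := by
      funext a
      simp [M]
    rw [h3] at h2
    rw [h2, zero_div]
  · rw [hw fun a => c a + ∑ i, (a i : ℝ) * x i]
    have h2 := hker (x, 0)
    have h3 : (fun a : A => c a + ∑ i, ((a : Fin n → ℕ) i : ℝ) * x i) = v + M (x, 0) := by
      funext a
      simp [M, v]
    rw [h3, map_add, h2, add_zero, div_self hφv]

/-- The alternating sum over the subsets of `T` vanishes. -/
lemma alternating (A : Finset (Fin n → ℕ)) (w t : (Fin n → ℕ) → ℝ)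
    (h0 : ∑ a ∈ A, w a = 0) (h1 : ∑ a ∈ A, w a * t a = 1)
    (hne : ∀ K : Finset (Fin n → ℕ), (K ∪ A.filter fun a => ¬ w a < 0).Nonempty) :
    ∑ K ∈ (A.filter fun a => w a < 0).powerset,
      (-1 : ℝ) ^ K.card * (K ∪ A.filter fun a => ¬ w a < 0).sup' (hne K) t = 0 := by
  classical
  set T := A.filter fun a => w a < 0 with hT
  set S := A.filter fun a => ¬ w a < 0 with hS
  have hTne : T.Nonempty := by
    by_contra hcon
    rw [not_nonempty_iff_eq_empty] at hcon
    have hnn : ∀ a ∈ A, 0 ≤ w a := by
      intro a ha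
      by_contra hlt
      have : a ∈ T := by
        rw [hT, mem_filter]; exact ⟨ha, not_le.1 hlt⟩
      rw [hcon] at this
      exact absurd this (notMem_empty a)
    have hz := (sum_eq_zero_iff_of_nonneg hnn).1 h0
    have : ∑ a ∈ A, w a * t a = 0 := sum_eq_zero fun a ha => by rw [hz a ha, zero_mul]
    rw [this] at h1
    exact zero_ne_one h1
  obtain ⟨b, hb, hbmin⟩ := exists_min_image T t hTne
  have hex : ∃ a ∈ S, t b < t a := by
    by_contra hcon
    push Not at hcon
    have h2 : ∑ a ∈ A, w a * (t a - t b) = 1 := by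
      simp only [mul_sub, sum_sub_distrib]
      rw [← sum_mul, h0, h1]; ring
    have h3 : ∑ a ∈ A, w a * (t a - t b) ≤ 0 := by
      apply sum_nonpos
      intro a ha
      by_cases hlt : w a < 0
      · have haT : a ∈ T := by rw [hT, mem_filter]; exact ⟨ha, hlt⟩
        have := hbmin a haT
        exact mul_nonpos_of_nonpos_of_nonneg hlt.le (by linarith)
      · have haS : a ∈ S := by rw [hS, mem_filter]; exact ⟨ha, hlt⟩
        have := hcon a haS
        exact mul_nonpos_of_nonneg_of_nonpos (not_lt.1 hlt) (by linarith)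
    linarith
  obtain ⟨a, haS, hab⟩ := hex
  have hTi : T = insert b (T.erase b) := (insert_erase hb).symm
  rw [hTi, sum_powerset_insert (notMem_erase b T), ← sum_add_distrib]
  apply sum_eq_zero
  intro K hK
  have hbK : b ∉ K := fun hbK => notMem_erase b T (mem_powerset.1 hK hbK)
  have hsup : (insert b K ∪ S).sup' (hne (insert b K)) t = (K ∪ S).sup' (hne K) t := by
    apply le_antisymm
    · apply sup'_le
      intro x hx
      rw [insert_union, mem_insert] at hx
      rcases hx with rfl | hx
      · exact le_trans hab.le (le_sup' t (mem_union_right _ haS))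
      · exact le_sup' t hx
    · apply sup'_le
      intro x hx
      apply le_sup' t
      rw [insert_union]
      exact mem_insert_of_mem hx
  rw [hsup, card_insert_of_notMem hbK, pow_succ]
  ring

/-- The additive group of functions generated by the units. -/
noncomputable def unitGroup (n : ℕ) : AddSubgroup ((Fin n → ℝ) → ℝ) :=
  AddSubgroup.closure {u | IsTropicalUnit u}

/-- Every tropical polynomial is an integer combination of units. -/
lemma trop_mem (m : ℕ) : ∀ (A : Finset (Fin n → ℕ)) (hA : A.Nonempty) (c : (Fin n → ℕ) → ℝ),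
    A.card = m → trop A hA c ∈ unitGroup n := by
  classical
  induction m using Nat.strong_induction_on with
  | _ m ih =>
    intro A hA c hm
    by_cases hcom : ∃ (x : Fin n → ℝ) (g : ℝ), ∀ a ∈ A, c a + ∑ i, (a i : ℝ) * x i = g
    · obtain ⟨x, g, h⟩ := hcom
      exact AddSubgroup.subset_closure ⟨A, hA, c, rfl, trivial_of_common A c x g h⟩
    · obtain ⟨w, hw0, hw1⟩ := exists_weights A c hcom
      set T := A.filter fun a => w a < 0 with hT
      set S := A.filter fun a => ¬ w a < 0 with hS
      have hSne : S.Nonempty := by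
        by_contra hcon
        rw [not_nonempty_iff_eq_empty] at hcon
        have hneg : ∀ a ∈ A, w a < 0 := by
          intro a ha
          by_contra hlt
          have : a ∈ S := by rw [hS, mem_filter]; exact ⟨ha, hlt⟩
          rw [hcon] at this
          exact absurd this (notMem_empty a)
        have := sum_neg hneg hA
        linarith
      have hne : ∀ K : Finset (Fin n → ℕ), (K ∪ S).Nonempty := fun K =>
        hSne.mono subset_union_right
      have key : ∀ x : Fin n → ℝ, ∑ K ∈ T.powerset,
          (-1 : ℝ) ^ K.card * trop (K ∪ S) (hne K) c x = 0 := fun x =>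
        alternating A w (fun a => c a + ∑ i, (a i : ℝ) * x i) hw0 (hw1 x) hne
      have hTS : T ∪ S = A := by
        rw [hT, hS]; exact filter_union_filter_not_eq _ _
      have hlast : trop (T ∪ S) (hne T) c = trop A hA c := by
        have : ∀ (B : Finset (Fin n → ℕ)) (hB : B.Nonempty), B = A →
            trop B hB c = trop A hA c := by
          rintro B hB rfl; rfl
        exact this _ _ hTS
      have hfun : trop A hA c = ∑ K ∈ T.powerset.erase T,
          (-((-1 : ℤ) ^ T.card * (-1 : ℤ) ^ K.card)) • trop (K ∪ S) (hne K) c := by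
        funext x
        have hx := key x
        rw [← add_sum_erase _ _ (mem_powerset_self T), hlast] at hx
        rw [Finset.sum_apply]
        have h1 : ((-1 : ℝ) ^ T.card) * ((-1 : ℝ) ^ T.card) = 1 := by
          rw [← mul_pow]; norm_num
        have h2 : trop A hA c x = -((-1 : ℝ) ^ T.card * ∑ K ∈ T.powerset.erase T,
            (-1 : ℝ) ^ K.card * trop (K ∪ S) (hne K) c x) := by
          have h3 : ((-1 : ℝ) ^ T.card) * ((-1 : ℝ) ^ T.card * trop A hA c x +
              ∑ K ∈ T.powerset.erase T, (-1 : ℝ) ^ K.card * trop (K ∪ S) (hne K) c x) = 0 := by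
            rw [hx, mul_zero]
          rw [mul_add, ← mul_assoc, h1, one_mul] at h3
          linarith
        rw [h2, mul_sum, ← sum_neg_distrib]
        refine sum_congr rfl fun K _ => ?_
        simp only [Pi.smul_apply, zsmul_eq_mul]
        push_cast
        ring
      rw [hfun]
      refine AddSubgroup.sum_mem _ fun K hK => AddSubgroup.zsmul_mem _ ?_ _
      rw [mem_erase, mem_powerset] at hK
      have hlt : (K ∪ S).card < m := by
        rw [← hm, ← hTS]
        apply card_lt_card
        refine ⟨union_subset_union_left hK.2, fun hsub => hK.1 ?_⟩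
        apply Subset.antisymm hK.2
        intro a ha
        rcases mem_union.1 (hsub (mem_union_left _ ha)) with h | h
        · exact h
        · rw [hT, mem_filter] at ha
          rw [hS, mem_filter] at h
          exact absurd ha.2 h.2
      exact ih _ hlt (K ∪ S) (hne K) c rfl

/-- Every element of the group generated by the units is a quotient of two products of units. -/
lemma factorizable_of_mem (f : (Fin n → ℝ) → ℝ) (hf : f ∈ unitGroup n) :
    RationallyFactorizable f := by
  refine AddSubgroup.closure_induction (p := fun g _ => RationallyFactorizable g) ?_ ?_ ?_ ?_ hf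
  · intro u hu
    exact ⟨[], [u], by simp, by simpa using hu, by simp⟩
  · exact ⟨[], [], by simp, by simp, by simp⟩
  · rintro u v _ _ ⟨G, H, hG, hH, h⟩ ⟨G', H', hG', hH', h'⟩
    refine ⟨G ++ G', H ++ H', ?_, ?_, ?_⟩
    · intro x hx
      rcases List.mem_append.1 hx with hx | hx
      exacts [hG x hx, hG' x hx]
    · intro x hx
      rcases List.mem_append.1 hx with hx | hx
      exacts [hH x hx, hH' x hx]
    · rw [List.sum_append, List.sum_append, ← h, ← h']
      abel
  · rintro u _ ⟨G, H, hG, hH, h⟩
    exact ⟨H, G, hH, hG, by rw [← h]; abel⟩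

/-- **Every tropical polynomial is rationally factorizable.** For every `n` and every tropical
polynomial `f` in `n` variables there are finite tropical products `g` and `h` of units with
`f ⊙ g = h`. -/
theorem result (n : ℕ) (f : (Fin n → ℝ) → ℝ) (hf : IsTropicalPolynomial f) :
    RationallyFactorizable f := by
  obtain ⟨A, hA, c, rfl⟩ := hf
  exact factorizable_of_mem _ (trop_mem A.card A hA c rfl)

end Pool.Agent.Results.MP_b8ee47_co.RationalFactorization
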